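import Pool.Agent.N407.LS.Bin

/-!
# Liouville spheres: length and displacements (helper266)
-/

set_option autoImplicit false

open MeasureTheory Set

namespace Pool.Agent.N266.LS

open Pool.Agent.Y291.DB (len gdist disc)
open Pool.Agent.N407.LS (dens_ge dens_cont)

theorem one_sub_cos_ge {u : ℝ} (h0 : 0 ≤ u) (h1 : u ≤ Real.pi) :
    2 * (u / Real.pi) ^ 2 ≤ 1 - Real.cos u := by
  have hπ := Real.pi_pos
  have h2 : u / Real.pi ≤ Real.sin (u / 2) := by
    have := Real.mul_le_sin (x := u / 2) (by linarith) (by linarith)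
    refine le_trans (le_of_eq ?_) this
    field_simp
  have h3 : 0 ≤ u / Real.pi := by positivity
  have h4 : Real.cos u = 1 - 2 * Real.sin (u / 2) ^ 2 := by
    have := Real.cos_sq' (u / 2)
    have h5 := Real.cos_sq (u / 2)
    rw [show 2 * (u / 2) = u by ring] at h5
    linarith
  rw [h4]
  nlinarith [pow_le_pow_left₀ h3 h2 2]

theorem abs_sin_per (k : ℤ) (t : ℝ) : |Real.sin (t + k * Real.pi)| = |Real.sin t| := by
  rw [Real.sin_add_int_mul_pi, abs_mul, abs_zpow]
  simp

theorem cont_as : Continuous fun t : ℝ => |Real.sin t| := Real.continuous_sin.abs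

theorem int_as (a b : ℝ) : IntervalIntegrable (fun t : ℝ => |Real.sin t|) volume a b :=
  cont_as.intervalIntegrable a b

/-- one half period -/
theorem J_small {c η : ℝ} (hc0 : 0 ≤ c) (hc1 : c ≤ Real.pi) (h0 : 0 ≤ η) (h1 : η ≤ Real.pi) :
    (η / Real.pi) ^ 2 ≤ ∫ t in c..(c + η), |Real.sin t| := by
  have hπ := Real.pi_pos
  have hsq : 0 ≤ (η / Real.pi) ^ 2 := sq_nonneg _
  by_cases hd : c + η ≤ Real.pi
  · have e1 : (∫ t in c..(c + η), |Real.sin t|) = ∫ t in c..(c + η), Real.sin t := by
      refine intervalIntegral.integral_congr fun t ht => ?_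
      rw [uIcc_of_le (by linarith)] at ht
      exact abs_of_nonneg (Real.sin_nonneg_of_nonneg_of_le_pi (by linarith [ht.1])
        (by linarith [ht.2]))
    rw [e1, integral_sin]
    have h2 : Real.cos c - Real.cos (c + η) = 2 * Real.sin (c + η / 2) * Real.sin (η / 2) := by
      rw [Real.cos_sub_cos, show (c + (c + η)) / 2 = c + η / 2 by ring,
        show (c - (c + η)) / 2 = -(η / 2) by ring, Real.sin_neg]
      ring
    rw [h2]
    have h3 : η / Real.pi ≤ Real.sin (η / 2) := by
      have := Real.mul_le_sin (x := η / 2) (by linarith) (by linarith)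
      refine le_trans (le_of_eq ?_) this
      field_simp
    have h4 : Real.sin (η / 2) ≤ Real.sin (c + η / 2) := by
      rcases le_total (c + η / 2) (Real.pi / 2) with h5 | h5
      · exact Real.sin_le_sin_of_le_of_le_pi_div_two (by linarith) h5 (by linarith)
      · rw [← Real.sin_pi_sub (c + η / 2)]
        exact Real.sin_le_sin_of_le_of_le_pi_div_two (by linarith) (by linarith) (by linarith)
    have h5 : 0 ≤ η / Real.pi := by positivity
    have h6 : 0 ≤ Real.sin (η / 2) := h5.trans h3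
    nlinarith [mul_le_mul h4 h3 h5 (h6.trans h4), mul_le_mul_of_nonneg_right h3 h5]
  · push Not at hd
    have e0 : (∫ t in c..(c + η), |Real.sin t|) =
        (∫ t in c..Real.pi, |Real.sin t|) + ∫ t in Real.pi..(c + η), |Real.sin t| :=
      (intervalIntegral.integral_add_adjacent_intervals (int_as _ _) (int_as _ _)).symm
    have e1 : (∫ t in c..Real.pi, |Real.sin t|) = ∫ t in c..Real.pi, Real.sin t := by
      refine intervalIntegral.integral_congr fun t ht => ?_
      rw [uIcc_of_le hc1] at ht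
      exact abs_of_nonneg (Real.sin_nonneg_of_nonneg_of_le_pi (by linarith [ht.1]) ht.2)
    have e2 : (∫ t in Real.pi..(c + η), |Real.sin t|) = ∫ t in Real.pi..(c + η), -Real.sin t := by
      refine intervalIntegral.integral_congr fun t ht => ?_
      rw [uIcc_of_le hd.le] at ht
      refine abs_of_nonpos ?_
      have := Real.sin_nonneg_of_nonneg_of_le_pi (x := t - Real.pi) (by linarith [ht.1])
        (by linarith [ht.2])
      rw [Real.sin_sub_pi] at this
      linarith
    rw [e0, e1, e2, intervalIntegral.integral_neg, integral_sin, integral_sin, Real.cos_pi]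
    have h2 := one_sub_cos_ge (u := Real.pi - c) (by linarith) (by linarith)
    have h3 := one_sub_cos_ge (u := c + η - Real.pi) (by linarith) (by linarith)
    rw [Real.cos_pi_sub] at h2
    rw [Real.cos_sub_pi] at h3
    have h4 : η / Real.pi = (Real.pi - c) / Real.pi + (c + η - Real.pi) / Real.pi := by
      field_simp; ring
    rw [h4]
    nlinarith [sq_nonneg ((Real.pi - c) / Real.pi - (c + η - Real.pi) / Real.pi)]

theorem J_shift (k : ℤ) (c η : ℝ) : (∫ t in c..(c + η), |Real.sin t|) =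
    ∫ t in (c - k * Real.pi)..(c - k * Real.pi + η), |Real.sin t| := by
  have h := intervalIntegral.integral_comp_add_right (a := c - k * Real.pi)
    (b := c - k * Real.pi + η) (fun t => |Real.sin t|) (k * Real.pi)
  simp only [abs_sin_per] at h
  rw [h]
  congr 1 <;> ring

theorem J_any {c η : ℝ} (h0 : 0 ≤ η) (h1 : η ≤ Real.pi) :
    (η / Real.pi) ^ 2 ≤ ∫ t in c..(c + η), |Real.sin t| := by
  have hπ := Real.pi_pos
  rw [J_shift ⌊c / Real.pi⌋ c η]
  have h2 := Int.floor_le (c / Real.pi)
  have h3 := Int.lt_floor_add_one (c / Real.pi)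
  rw [le_div_iff₀ hπ] at h2
  rw [div_lt_iff₀ hπ] at h3
  exact J_small (by linarith) (by linarith) h0 h1

theorem J_pi (c : ℝ) : (∫ t in c..(c + Real.pi), |Real.sin t|) = 2 := by
  have hπ := Real.pi_pos
  rw [J_shift ⌊c / Real.pi⌋ c Real.pi]
  have h2 := Int.floor_le (c / Real.pi)
  have h3 := Int.lt_floor_add_one (c / Real.pi)
  rw [le_div_iff₀ hπ] at h2
  rw [div_lt_iff₀ hπ] at h3
  obtain ⟨b, hb⟩ : ∃ b, b = c - ⌊c / Real.pi⌋ * Real.pi := ⟨_, rfl⟩
  rw [← hb]
  have hb0 : 0 ≤ b := by rw [hb]; linarith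
  have hb1 : b ≤ Real.pi := by rw [hb]; linarith
  have e0 : (∫ t in b..(b + Real.pi), |Real.sin t|) =
      (∫ t in b..Real.pi, |Real.sin t|) + ∫ t in Real.pi..(b + Real.pi), |Real.sin t| :=
    (intervalIntegral.integral_add_adjacent_intervals (int_as _ _) (int_as _ _)).symm
  have e1 : (∫ t in b..Real.pi, |Real.sin t|) = ∫ t in b..Real.pi, Real.sin t := by
    refine intervalIntegral.integral_congr fun t ht => ?_
    rw [uIcc_of_le hb1] at ht
    exact abs_of_nonneg (Real.sin_nonneg_of_nonneg_of_le_pi (by linarith [ht.1]) ht.2)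
  have e2 : (∫ t in Real.pi..(b + Real.pi), |Real.sin t|) =
      ∫ t in Real.pi..(b + Real.pi), -Real.sin t := by
    refine intervalIntegral.integral_congr fun t ht => ?_
    rw [uIcc_of_le (by linarith)] at ht
    refine abs_of_nonpos ?_
    have := Real.sin_nonneg_of_nonneg_of_le_pi (x := t - Real.pi) (by linarith [ht.1])
      (by linarith [ht.2])
    rw [Real.sin_sub_pi] at this
    linarith
  rw [e0, e1, e2, intervalIntegral.integral_neg, integral_sin, integral_sin, Real.cos_pi,
    Real.cos_add_pi]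
  ring

theorem J_nat (c : ℝ) (n : ℕ) : (∫ t in c..(c + n * Real.pi), |Real.sin t|) = 2 * n := by
  induction n with
  | zero => simp
  | succ n ih =>
    have h2 : c + ((n + 1 : ℕ) : ℝ) * Real.pi = c + n * Real.pi + Real.pi := by
      push_cast; ring
    rw [h2, ← intervalIntegral.integral_add_adjacent_intervals (int_as c (c + n * Real.pi))
      (int_as _ _), ih, J_pi]
    push_cast
    ring

theorem J_main {c η : ℝ} (h0 : 0 ≤ η) :
    min ((η / Real.pi) ^ 2) (η / Real.pi) ≤ ∫ t in c..(c + η), |Real.sin t| := by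
  have hπ := Real.pi_pos
  rcases le_total η Real.pi with h1 | h1
  · exact (min_le_left _ _).trans (J_any h0 h1)
  · refine (min_le_right _ _).trans ?_
    obtain ⟨n, hn⟩ : ∃ n : ℕ, n = ⌊η / Real.pi⌋₊ := ⟨_, rfl⟩
    have hn1 : 1 ≤ n := by
      rw [hn]
      exact Nat.le_floor (by rw [le_div_iff₀ hπ]; simpa using h1)
    have hn2 : (n : ℝ) ≤ η / Real.pi := by rw [hn]; exact Nat.floor_le (by positivity)
    have hn3 : η / Real.pi < n + 1 := by rw [hn]; exact Nat.lt_floor_add_one _
    have hn4 : (1 : ℝ) ≤ n := by exact_mod_cast hn1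
    have h2 : (∫ t in c..(c + n * Real.pi), |Real.sin t|) ≤ ∫ t in c..(c + η), |Real.sin t| := by
      refine intervalIntegral.integral_mono_interval le_rfl ?_ ?_
        (Filter.Eventually.of_forall fun t => abs_nonneg _) (int_as _ _)
      · have : 0 ≤ (n : ℝ) * Real.pi := by positivity
        linarith
      · rw [le_div_iff₀ hπ] at hn2
        linarith
    rw [J_nat] at h2
    linarith

/-- the integral with the frequency `ω` -/
theorem J_om {ω : ℝ} (hω : 0 < ω) (a b : ℝ) :
    min (ω / Real.pi ^ 2 * |b - a| ^ 2) (1 / Real.pi * |b - a|) ≤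
      abs (∫ t in a..b, |Real.sin (ω * t)|) := by
  have hπ := Real.pi_pos
  have key : ∀ a b : ℝ, a ≤ b → min (ω / Real.pi ^ 2 * (b - a) ^ 2) (1 / Real.pi * (b - a)) ≤
      ∫ t in a..b, |Real.sin (ω * t)| := by
    intro a b hab
    have h1 := intervalIntegral.integral_comp_mul_left (a := a) (b := b)
      (fun t => |Real.sin t|) hω.ne'
    simp only [smul_eq_mul] at h1
    rw [h1]
    have h2 := J_main (c := ω * a) (η := ω * (b - a)) (mul_nonneg hω.le (by linarith))
    rw [show ω * a + ω * (b - a) = ω * b by ring] at h2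
    have h3 : min (ω / Real.pi ^ 2 * (b - a) ^ 2) (1 / Real.pi * (b - a)) =
        ω⁻¹ * min ((ω * (b - a) / Real.pi) ^ 2) (ω * (b - a) / Real.pi) := by
      rw [mul_min_of_nonneg _ _ (inv_nonneg.2 hω.le)]
      congr 1
      · field_simp
      · field_simp
    rw [h3]
    exact mul_le_mul_of_nonneg_left h2 (inv_nonneg.2 hω.le)
  rcases le_total a b with h | h
  · rw [abs_of_nonneg (sub_nonneg.2 h)]
    exact (key a b h).trans (le_abs_self _)
  · rw [intervalIntegral.integral_symm, abs_neg, abs_sub_comm, abs_of_nonneg (sub_nonneg.2 h)]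
    exact (key b a h).trans (le_abs_self _)

/-- lower bound of a length -/
theorem len_ge {ω m : ℝ} {ρ : ℝ × ℝ → ℝ} {γ : ℝ → ℝ × ℝ} {u u' : ℝ → ℝ}
    (hu : ∀ s, HasDerivAt u (u' s) s) (hc : Continuous u')
    (hcl : Continuous fun s => Real.sqrt (ρ (γ s)) *
      Real.sqrt ((deriv γ s).1 ^ 2 + (deriv γ s).2 ^ 2))
    (h1 : ∀ s, Real.sqrt m * |Real.sin (ω * u s)| ≤ Real.sqrt (ρ (γ s)))
    (h2 : ∀ s, |u' s| ≤ Real.sqrt ((deriv γ s).1 ^ 2 + (deriv γ s).2 ^ 2)) :
    Real.sqrt m * abs (∫ t in (u 0)..(u 1), |Real.sin (ω * t)|) ≤ len ρ γ := by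
  have huc : Continuous u := continuous_iff_continuousAt.2 fun s => (hu s).continuousAt
  have hsc : Continuous fun t : ℝ => |Real.sin (ω * t)| := by fun_prop
  have e1 := intervalIntegral.integral_comp_mul_deriv (a := 0) (b := 1) (f := u) (f' := u')
    (g := fun t : ℝ => |Real.sin (ω * t)|) (fun s _ => hu s) hc.continuousOn hsc
  rw [← e1]
  have h3 : abs (∫ s in (0 : ℝ)..1, ((fun t : ℝ => |Real.sin (ω * t)|) ∘ u) s * u' s) ≤
      ∫ s in (0 : ℝ)..1, abs (((fun t : ℝ => |Real.sin (ω * t)|) ∘ u) s * u' s) :=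
    intervalIntegral.abs_integral_le_integral_abs zero_le_one
  have hF : Continuous fun s => ((fun t : ℝ => |Real.sin (ω * t)|) ∘ u) s * u' s :=
    (hsc.comp huc).mul hc
  calc Real.sqrt m * abs (∫ s in (0 : ℝ)..1, ((fun t : ℝ => |Real.sin (ω * t)|) ∘ u) s * u' s)
      ≤ Real.sqrt m * ∫ s in (0 : ℝ)..1, abs (((fun t : ℝ => |Real.sin (ω * t)|) ∘ u) s * u' s) :=
        mul_le_mul_of_nonneg_left h3 (Real.sqrt_nonneg _)
    _ = ∫ s in (0 : ℝ)..1, Real.sqrt m *
          abs (((fun t : ℝ => |Real.sin (ω * t)|) ∘ u) s * u' s) := by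
        rw [intervalIntegral.integral_const_mul]
    _ ≤ len ρ γ := by
        unfold len
        refine intervalIntegral.integral_mono_on zero_le_one
          ((continuous_const.mul hF.abs).intervalIntegrable _ _) (hcl.intervalIntegrable _ _) ?_
        intro s _
        have e3 : Real.sqrt m * abs (((fun t : ℝ => |Real.sin (ω * t)|) ∘ u) s * u' s) =
            Real.sqrt m * |Real.sin (ω * u s)| * |u' s| := by
          show Real.sqrt m * abs (|Real.sin (ω * u s)| * u' s) = _
          rw [abs_mul, abs_abs]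
          ring
        rw [e3]
        exact mul_le_mul (h1 s) (h2 s) (abs_nonneg _) (Real.sqrt_nonneg _)

theorem t_NEAR : S_NEAR := by
  intro f g L m K h γ hγ
  have hπ := Real.pi_pos
  have hL := h.L0
  have hdc : Continuous (deriv γ) := hγ.continuous_deriv le_rfl
  have hγc : Continuous γ := hγ.continuous
  have hdd : ∀ s, HasDerivAt γ (deriv γ s) s := fun s =>
    ((hγ.differentiable one_ne_zero) s).hasDerivAt
  have hd1 : ∀ s, HasDerivAt (fun s => (γ s).1) (deriv γ s).1 s := fun s =>
    ((ContinuousLinearMap.fst ℝ ℝ ℝ).hasFDerivAt (x := γ s)).comp_hasDerivAt s (hdd s)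
  have hd2 : ∀ s, HasDerivAt (fun s => (γ s).2) (deriv γ s).2 s := fun s =>
    ((ContinuousLinearMap.snd ℝ ℝ ℝ).hasFDerivAt (x := γ s)).comp_hasDerivAt s (hdd s)
  have hcont : Continuous fun s => Real.sqrt (dens f g (γ s)) *
      Real.sqrt ((deriv γ s).1 ^ 2 + (deriv γ s).2 ^ 2) := by
    have := dens_cont h
    fun_prop
  have hsq : ∀ v : ℝ, Real.sqrt m * |v| = Real.sqrt (m * v ^ 2) := fun v => by
    rw [Real.sqrt_mul h.m0.le, Real.sqrt_sq_eq_abs]
  constructor
  · have h1 := len_ge (ω := 2 * Real.pi / L) (m := m) (ρ := dens f g) (γ := γ) hd1 hdc.fst hcont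
      (fun s => by
        rw [hsq]
        refine Real.sqrt_le_sqrt ?_
        have h3 := h.lf (γ s).1
        have h4 := h.lg (γ s).2
        have h5 : 0 ≤ m * Real.sin (γ s).2 ^ 2 := mul_nonneg h.m0.le (sq_nonneg _)
        rw [show 2 * Real.pi / L * (γ s).1 = 2 * Real.pi * (γ s).1 / L by ring]
        show _ ≤ f (γ s).1 + g (γ s).2
        linarith)
      (fun s => by
        rw [← Real.sqrt_sq_eq_abs]
        exact Real.sqrt_le_sqrt (by nlinarith [sq_nonneg (deriv γ s).2]))
    refine le_trans (mul_le_mul_of_nonneg_left ?_ (Real.sqrt_nonneg _)) h1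
    have h2 := J_om (ω := 2 * Real.pi / L) (by positivity) (γ 0).1 (γ 1).1
    refine le_trans (le_of_eq ?_) h2
    congr 2
    field_simp
  · have h1 := len_ge (ω := 1) (m := m) (ρ := dens f g) (γ := γ) hd2 hdc.snd hcont
      (fun s => by
        rw [hsq]
        refine Real.sqrt_le_sqrt ?_
        have h3 := h.lf (γ s).1
        have h4 := h.lg (γ s).2
        have h5 : 0 ≤ m * Real.sin (2 * Real.pi * (γ s).1 / L) ^ 2 :=
          mul_nonneg h.m0.le (sq_nonneg _)
        rw [one_mul]
        show _ ≤ f (γ s).1 + g (γ s).2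
        linarith)
      (fun s => by
        rw [← Real.sqrt_sq_eq_abs]
        exact Real.sqrt_le_sqrt (by nlinarith [sq_nonneg (deriv γ s).1]))
    refine le_trans (mul_le_mul_of_nonneg_left ?_ (Real.sqrt_nonneg _)) h1
    exact J_om (ω := 1) one_pos (γ 0).2 (γ 1).2

end Pool.Agent.N266.LS
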