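import Pool.Agent.N273.LT.Sum3

/-!
# Liouville spheres: definitions and the statements of the modules (helper266)

The sphere is the quotient of the torus `ℝ²/(Lℤ × 2πℤ)` by `z ↦ -z`, with a Liouville metric
`(f(x) + g(y))(dx² + dy²)`, where `f` and `g` are even and vanish to the second order at the half
periods.  The modules are about the torus with this (degenerate) metric.
-/

set_option autoImplicit false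

open MeasureTheory Set

namespace Pool.Agent.N266.LS

open Pool.Agent.N273.LT (Alt sc n1 n2 zz UB)
open Pool.Agent.Y291.PA (Sol2)
open Pool.Agent.R220.LV (W)
open Pool.Agent.Y291.DB (len gdist disc doubling Eigen)

/-- The square of the distance to the half periods, up to constants. -/
noncomputable def D2 (L : ℝ) (p : ℝ × ℝ) : ℝ :=
  Real.sin (2 * Real.pi * p.1 / L) ^ 2 + Real.sin p.2 ^ 2

/-- The inverse scale at a point. -/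
noncomputable def nn (L lam : ℝ) (p : ℝ × ℝ) : ℝ :=
  Real.sqrt (1 + Real.sqrt lam + lam * D2 L p)

/-- A Liouville metric with cone points at the half periods. -/
structure LM (f g : ℝ → ℝ) (L m K : ℝ) : Prop where
  cf : Continuous f
  cg : Continuous g
  L0 : 0 < L
  m0 : 0 < m
  K0 : 0 < K
  pf : ∀ x, f (x + L) = f x
  pg : ∀ y, g (y + 2 * Real.pi) = g y
  lf : ∀ x, m * Real.sin (2 * Real.pi * x / L) ^ 2 ≤ f x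
  uf : ∀ x, f x ≤ K * Real.sin (2 * Real.pi * x / L) ^ 2
  lg : ∀ y, m * Real.sin y ^ 2 ≤ g y
  ug : ∀ y, g y ≤ K * Real.sin y ^ 2

/-- The density. -/
def dens (f g : ℝ → ℝ) (p : ℝ × ℝ) : ℝ := f p.1 + g p.2

/-- The nearest point of an interval. -/
noncomputable def clamp (a b x : ℝ) : ℝ := max a (min b x)

/-- Extension of a solution from a window, with potentials which are constant outside. -/
def S_EXT : Prop := ∀ (f g : ℝ → ℝ) (hf : Continuous f) (hg : Continuous g) (L lam : ℝ), 0 < L →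
  0 < lam → ∀ φ ∈ W hf hg L lam, ∀ a₀ a₁ b₀ b₁ : ℝ, a₀ ≤ a₁ → b₀ ≤ b₁ →
  ∃ Φ Φx Φxx Φy Φyy : ℝ → ℝ → ℝ,
    Sol2 (fun x y => lam * (f (clamp a₀ a₁ x) + g (clamp b₀ b₁ y))) Φ Φx Φxx Φy Φyy ∧
    ∀ x ∈ Icc a₀ a₁, ∀ y ∈ Icc b₀ b₁, Φ x y = φ (x, y)

/-- Chains of boxes, local version. -/
def S_CHAIN : Prop := ∃ C : ℝ, 0 < C ∧ ∀ (f g : ℝ → ℝ) (hf : Continuous f) (hg : Continuous g)
  (L lam : ℝ), 0 < L → 0 < lam → ∀ φ ∈ W hf hg L lam, UB (fun x y => φ (x, y)) →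
  ∀ (r w X Y κ : ℝ) (N : ℕ), 0 < r →
  (∀ x, |x - X| ≤ (N + 5) * r → |r ^ 2 * lam * f x| ≤ 1 / 100) →
  (∀ y, |y - Y| ≤ (N + 5) * r → |r ^ 2 * lam * g y| ≤ 1 / 100) → (N + 2) * r ≤ w →
  (∀ x y, |x - X| ≤ r → |y - Y| ≤ r → |φ (x, y)| ≤ κ) →
  ∀ a b, |a - X| ≤ N * r → |b - Y| ≤ N * r →
    |φ (a, b)| ≤ κ * Real.exp (N * (C * (1 + zz (fun x y => φ (x, y)) w X Y / r)))

/-- Slow variation of the scale. -/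
def S_VAR : Prop := ∀ L c : ℝ, 0 < L → 0 < c → ∃ κ : ℝ, 1 ≤ κ ∧ ∀ (lam : ℝ) (p q : ℝ × ℝ),
  0 < lam → |q.1 - p.1| ≤ c / nn L lam p → |q.2 - p.2| ≤ c / nn L lam p →
  nn L lam q ≤ κ * nn L lam p ∧ nn L lam p ≤ κ * nn L lam q

/-- The potential is small at the scale `h / nn`. -/
def S_POT : Prop := ∀ L K A : ℝ, 0 < L → 0 < K → 0 < A → ∃ h : ℝ, 0 < h ∧ h ≤ 1 ∧
  ∀ (f g : ℝ → ℝ) (m lam : ℝ), LM f g L m K → 0 < lam → ∀ p : ℝ × ℝ,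
  (∀ x, |x - p.1| ≤ A / nn L lam p → |(h / nn L lam p) ^ 2 * lam * f x| ≤ 1 / 100) ∧
  (∀ y, |y - p.2| ≤ A / nn L lam p → |(h / nn L lam p) ^ 2 * lam * g y| ≤ 1 / 100)

/-- Boxes are contained in discs. -/
def S_BIN : Prop := ∀ L K C : ℝ, 0 < L → 0 < K → 0 < C → ∃ β : ℝ, 0 < β ∧ β ≤ 1 ∧
  ∀ (f g : ℝ → ℝ) (m lam : ℝ), LM f g L m K → 0 < lam → ∀ p q : ℝ × ℝ,
  |q.1 - p.1| ≤ β / nn L lam p → |q.2 - p.2| ≤ β / nn L lam p →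
  q ∈ disc (dens f g) L 0 p (C / Real.sqrt lam)

/-- A curve which leaves a box far from the half periods is long. -/
def S_FAR : Prop := ∀ (f g : ℝ → ℝ) (L m K : ℝ), LM f g L m K → ∀ (γ : ℝ → ℝ × ℝ) (d ρ₀ : ℝ),
  ContDiff ℝ 1 γ → 0 < ρ₀ → 0 ≤ d → (∀ q : ℝ × ℝ, |q.1 - (γ 0).1| ≤ ρ₀ → |q.2 - (γ 0).2| ≤ ρ₀ →
    d ^ 2 ≤ D2 L q) →
  (ρ₀ ≤ |(γ 1).1 - (γ 0).1| ∨ ρ₀ ≤ |(γ 1).2 - (γ 0).2|) →
  Real.sqrt m * d * ρ₀ ≤ len (dens f g) γ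

/-- Lower bounds of the length by the displacements. -/
def S_NEAR : Prop := ∀ (f g : ℝ → ℝ) (L m K : ℝ), LM f g L m K → ∀ γ : ℝ → ℝ × ℝ,
  ContDiff ℝ 1 γ →
  Real.sqrt m * min (2 / (Real.pi * L) * |(γ 1).1 - (γ 0).1| ^ 2)
    (1 / Real.pi * |(γ 1).1 - (γ 0).1|) ≤ len (dens f g) γ ∧
  Real.sqrt m * min (1 / Real.pi ^ 2 * |(γ 1).2 - (γ 0).2| ^ 2)
    (1 / Real.pi * |(γ 1).2 - (γ 0).2|) ≤ len (dens f g) γ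

/-- Discs are contained in boxes. -/
def S_DIN : Prop := ∀ L m K C : ℝ, 0 < L → 0 < m → 0 < K → 0 < C → ∃ A : ℝ, 0 < A ∧
  ∀ (f g : ℝ → ℝ) (lam : ℝ), LM f g L m K → 0 < lam → ∀ p q : ℝ × ℝ,
  q ∈ disc (dens f g) L 0 p (2 * (C / Real.sqrt lam)) →
  ∃ i j : ℤ, |q.1 + i * L - p.1| ≤ A / nn L lam p ∧
    |q.2 + j * (2 * Real.pi) - p.2| ≤ A / nn L lam p

/-- The doubling index and the growth exponent. -/
def S_DOUB : Prop := ∀ L m K C : ℝ, 0 < L → 0 < m → 0 < K → 0 < C → ∃ β E w₀ : ℝ, 0 < β ∧ β ≤ 1 ∧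
  0 < E ∧ 0 < w₀ ∧ ∀ (f g : ℝ → ℝ) (lam : ℝ) (φ : ℝ × ℝ → ℝ), LM f g L m K →
  Eigen (dens f g) L 0 lam φ → ∀ (p : ℝ × ℝ) (X Y : ℝ), |X - p.1| ≤ β / nn L lam p →
  |Y - p.2| ≤ β / nn L lam p → (X, Y) ∈ disc (dens f g) L 0 p (C / Real.sqrt lam) ∧
    max (doubling (dens f g) L 0 φ p (C / Real.sqrt lam)) 0 ≤
      E * (1 + zz (fun x y => φ (x, y)) (w₀ / nn L lam p) X Y * nn L lam p)

/-- Numbers of sign changes of eigenfunctions. -/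
def S_CNT : Prop := ∀ L K R : ℝ, 0 < L → 0 < K → 0 < R → ∃ Z₀ : ℝ, 0 < Z₀ ∧
  ∀ (f g : ℝ → ℝ) (m lam : ℝ) (φ : ℝ × ℝ → ℝ), LM f g L m K → Eigen (dens f g) L 0 lam φ →
  UB (fun x y => φ (x, y)) ∧
  (∀ x a b (n : ℕ), b - a ≤ R → Alt (fun y => φ (x, y)) (Ioo a b) n →
    (n : ℝ) ≤ Z₀ * Real.sqrt (1 + lam)) ∧
  ∀ y a b (n : ℕ), b - a ≤ R → Alt (fun x => φ (x, y)) (Ioo a b) n →
    (n : ℝ) ≤ Z₀ * Real.sqrt (1 + lam)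

/-- Summation over points of a square. -/
def S_RECT : Prop := ∀ (φ : ℝ → ℝ → ℝ), UB φ → ∀ (Z R : ℝ), 0 ≤ Z →
  (∀ x a b (n : ℕ), b - a ≤ R → Alt (fun y => φ x y) (Ioo a b) n → (n : ℝ) ≤ Z) →
  (∀ y a b (n : ℕ), b - a ≤ R → Alt (fun x => φ x y) (Ioo a b) n → (n : ℝ) ≤ Z) →
  ∀ (X₀ Y₀ a b w E N C₁ : ℝ) (ι : Type) [Fintype ι] (p : ι → ℝ × ℝ) (d : ι → ℝ),
  0 < a → 0 < b → 0 < w → 0 ≤ E → 0 ≤ N → 2 * a + 2 * b + 4 * w ≤ R →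
  (∀ i, |(p i).1 - X₀| ≤ a) → (∀ i, |(p i).2 - Y₀| ≤ a) → (∀ i, 0 ≤ d i) →
  (∀ i x y, |x - (p i).1| ≤ b → |y - (p i).2| ≤ b → d i ≤ E * (1 + zz φ w x y * N)) →
  (∀ x y, ({i | |x - (p i).1| ≤ b ∧ |y - (p i).2| ≤ b}.ncard : ℝ) ≤ C₁) →
  (∑ i, d i) * (2 * b) ^ 2 ≤ C₁ * E * ((2 * a + 2 * b) ^ 2 +
    N * (2 * ((2 * w) ^ 2 * Z * (2 * a + 2 * b))))

/-- The discs of one scale around one half period. -/
def S_LEVEL : Prop := ∀ L m K C C₁ : ℝ, 0 < L → 0 < m → 0 < K → 0 < C → 0 < C₁ → ∃ A : ℝ, 0 < A ∧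
  ∀ (f g : ℝ → ℝ) (lam : ℝ) (φ : ℝ × ℝ → ℝ), LM f g L m K → Eigen (dens f g) L 0 lam φ →
  ∀ (j : ℕ) (k l : ℤ) (ι : Type) [Fintype ι] (p : ι → ℝ × ℝ),
  (∀ i, |(p i).1 - k * (L / 2)| ≤ L / 4) → (∀ i, |(p i).2 - l * Real.pi| ≤ Real.pi / 2) →
  (∀ i, (2 : ℝ) ^ j ≤ nn L lam (p i)) → (∀ i, nn L lam (p i) ≤ 2 ^ (j + 1)) →
  (∀ q : ℝ × ℝ, ({i | q ∈ disc (dens f g) L 0 (p i) (C / Real.sqrt lam)}.ncard : ℝ) ≤ C₁) →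
  ∑ i, max (doubling (dens f g) L 0 φ (p i) (C / Real.sqrt lam)) 0 ≤
    A * (4 ^ j + Real.sqrt (1 + lam))

/-- The sum over all discs. -/
def S_SUM : Prop := ∀ L m K C C₁ : ℝ, 0 < L → 0 < m → 0 < K → 0 < C → 0 < C₁ → ∃ A : ℝ, 0 < A ∧
  ∀ (f g : ℝ → ℝ) (lam : ℝ) (φ : ℝ × ℝ → ℝ), LM f g L m K → Eigen (dens f g) L 0 lam φ →
  ∀ (ι : Type) [Fintype ι] (c : ι → ℝ × ℝ),
  (∀ q : ℝ × ℝ, ({i | q ∈ disc (dens f g) L 0 (c i) (C / Real.sqrt lam)}.ncard : ℝ) ≤ C₁) →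
  ∑ i, max (doubling (dens f g) L 0 φ (c i) (C / Real.sqrt lam)) 0 ≤ A * (1 + lam)

end Pool.Agent.N266.LS
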