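import Pool.Agent.N266.LS.Sph
import Pool.Agent.N756.LS.EXT
import Pool.Agent.N755.LS.Chain
import Pool.Agent.N157.LS.Scale
import Pool.Agent.N407.LS.Bin
import Pool.Agent.N407.LS.Far
import Pool.Agent.N407.LS.Din
import Pool.Agent.N266.LS.Near
import Pool.Agent.N692.LS.Doub
import Pool.Agent.N539.LS.Rect
import Pool.Agent.N539.LS.Sum
import Pool.Agent.N559.LS.Level

/-!
# Project LS: assembly (helper266)

The modules are by helper756 (extension of solutions), helper755 (chains of boxes), helper157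
(scales), helper407 (boxes and discs), helper692 (doubling indices), helper539
and helper559 (sums over the centers); the local estimate, the torus and the spheres of revolution
are by helper273 and helper295 with their co-authors.
-/

set_option autoImplicit false

open MeasureTheory Set

namespace Pool.Agent.N266.LS

open Pool.Agent.Y291.DB (len gdist disc doubling Eigen)

theorem t_DIN' : S_DIN :=
  Pool.Agent.N407.LS.t_DIN Pool.Agent.N407.LS.t_FAR t_NEAR

theorem t_DOUB' : S_DOUB :=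
  Pool.Agent.N692.LS.t_DOUB (Pool.Agent.N755.LS.t_CHAIN Pool.Agent.N756.LS.t_EXT)
    Pool.Agent.N157.LS.t_POT Pool.Agent.N407.LS.t_BIN t_DIN' Pool.Agent.N157.LS.t_CNT

theorem t_SUM' : S_SUM :=
  Pool.Agent.N539.LS.t_SUM (Pool.Agent.N559.LS.t_LEVEL t_DOUB' Pool.Agent.N157.LS.t_CNT
    Pool.Agent.N539.LS.t_RECT)

/-- The theorem; the constant depends on `L`, `m`, `K`, `C`, `C₁`, `C₂` only. -/
theorem final (L m K : ℝ) (hL : 0 < L) (hm : 0 < m) (hK : 0 < K) (C C₁ C₂ : ℝ)
    (hC : 0 < C) (hC₁ : 0 < C₁) (hC₂ : 0 < C₂) :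
    ∃ A : ℝ, 0 < A ∧ ∀ f g : ℝ → ℝ, LM f g L m K →
      ∀ (lam : ℝ) (φ : ℝ × ℝ → ℝ), SEigen (dens f g) L lam φ →
      ∀ (ι : Type) [Fintype ι] (c : ι → ℝ × ℝ), SAdmissible (dens f g) L lam φ C C₁ C₂ c →
        (∑ i, sdoubling (dens f g) L φ (c i) (C / Real.sqrt lam)) / Fintype.card ι ≤ A := by
  obtain ⟨a, ha, H⟩ := t_SUM' L m K C C₁ hL hm hK hC hC₁
  refine ⟨a * (1 + C₂), by positivity, fun f g h lam φ hφ ι _ c hc => ?_⟩
  have hlam := hφ.pos
  have h1 : (0 : ℝ) < Fintype.card ι := lt_of_lt_of_le (by positivity) hc.lower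
  have h2 : (1 : ℝ) ≤ Fintype.card ι := by
    have h3 : 0 < Fintype.card ι := by exact_mod_cast h1
    exact_mod_cast h3
  have h4 : lam ≤ C₂ * Fintype.card ι := by
    have := hc.lower
    rw [inv_mul_le_iff₀ hC₂] at this
    exact this
  have hmult : ∀ q : ℝ × ℝ,
      ({i | q ∈ disc (dens f g) L 0 (c i) (C / Real.sqrt lam)}.ncard : ℝ) ≤ C₁ := by
    intro q
    refine le_trans ?_ (hc.mult q)
    have h5 : {i | q ∈ disc (dens f g) L 0 (c i) (C / Real.sqrt lam)} ⊆
        {i | q ∈ sdisc (dens f g) L (c i) (C / Real.sqrt lam)} := fun i hi =>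
      (mem_sdisc_iff _ _ _ _ _).2 (Or.inl hi)
    exact_mod_cast Set.ncard_le_ncard h5 (Set.toFinite _)
  rw [div_le_iff₀ h1]
  calc ∑ i, sdoubling (dens f g) L φ (c i) (C / Real.sqrt lam)
      ≤ ∑ i, max (doubling (dens f g) L 0 φ (c i) (C / Real.sqrt lam)) 0 :=
        Finset.sum_le_sum fun i _ => by
          rw [sdoubling_eq _ _ hφ.even]
          exact le_max_left _ _
    _ ≤ a * (1 + lam) := H f g lam φ h hφ.toEigen ι c hmult
    _ ≤ a * (1 + C₂) * Fintype.card ι := by
        have h5 : 1 + lam ≤ (1 + C₂) * Fintype.card ι := by linarith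
        calc a * (1 + lam) ≤ a * ((1 + C₂) * Fintype.card ι) :=
              mul_le_mul_of_nonneg_left h5 ha.le
          _ = _ := by ring

end Pool.Agent.N266.LS
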