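import Pool.Agent.N266.LS.Stm

/-!
# Liouville spheres: the sphere as the quotient of the torus by `z ↦ -z` (helper266)
-/

set_option autoImplicit false

open MeasureTheory Set

namespace Pool.Agent.N266.LS

open Pool.Agent.Y291.DB (len gdist disc doubling Eigen)

/-- The Riemannian distance on the sphere between the classes of `p` and `q`: the infimum of the
lengths of the `C¹` curves from `p` to a point of the class of `q`. -/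
noncomputable def sdist (ρ : ℝ × ℝ → ℝ) (L : ℝ) (p q : ℝ × ℝ) : ℝ :=
  sInf {l : ℝ | ∃ γ : ℝ → ℝ × ℝ, ContDiff ℝ 1 γ ∧ γ 0 = p ∧
    (∃ ε : ℝ, (ε = 1 ∨ ε = -1) ∧ ∃ m n : ℤ,
      γ 1 = (ε * q.1 + m * L, ε * q.2 + n * (2 * Real.pi))) ∧ l = len ρ γ}

/-- The geodesic disc of radius `r` with center `p`. -/
def sdisc (ρ : ℝ × ℝ → ℝ) (L : ℝ) (p : ℝ × ℝ) (r : ℝ) : Set (ℝ × ℝ) := {q | sdist ρ L p q < r}

/-- The doubling index. -/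
noncomputable def sdoubling (ρ : ℝ × ℝ → ℝ) (L : ℝ) (φ : ℝ × ℝ → ℝ) (p : ℝ × ℝ) (r : ℝ) : ℝ :=
  Real.logb 2 (sSup ((fun q => |φ q|) '' sdisc ρ L p (2 * r)) /
    sSup ((fun q => |φ q|) '' sdisc ρ L p r))

/-- `φ` is a real eigenfunction with eigenvalue `lam > 0` of the Laplacian of the sphere. -/
structure SEigen (ρ : ℝ × ℝ → ℝ) (L lam : ℝ) (φ : ℝ × ℝ → ℝ) : Prop where
  pos : 0 < lam
  smooth : ContDiff ℝ 2 φ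
  even : ∀ p : ℝ × ℝ, φ (-p.1, -p.2) = φ p
  perx : ∀ p : ℝ × ℝ, φ (p.1 + L, p.2) = φ p
  pery : ∀ p : ℝ × ℝ, φ (p.1, p.2 + 2 * Real.pi) = φ p
  ne : ∃ p, φ p ≠ 0
  eq : ∀ p : ℝ × ℝ, iteratedDeriv 2 (fun x => φ (x, p.2)) p.1 +
    iteratedDeriv 2 (fun y => φ (p.1, y)) p.2 + lam * ρ p * φ p = 0

/-- The discs of radius `C / √lam` with centers `c i` form an admissible covering for `φ` with
constants `C`, `C₁`, `C₂`. -/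
structure SAdmissible (ρ : ℝ × ℝ → ℝ) (L lam : ℝ) (φ : ℝ × ℝ → ℝ) (C C₁ C₂ : ℝ)
    {ι : Type} [Fintype ι] (c : ι → ℝ × ℝ) : Prop where
  cover : ∀ q : ℝ × ℝ, ∃ i, q ∈ sdisc ρ L (c i) (C / Real.sqrt lam)
  lower : C₂⁻¹ * lam ≤ Fintype.card ι
  upper : (Fintype.card ι : ℝ) ≤ C₂ * lam
  mult : ∀ q : ℝ × ℝ, ({i | q ∈ sdisc ρ L (c i) (C / Real.sqrt lam)}.ncard : ℝ) ≤ C₁
  zero : ∀ i, φ (c i) = 0

theorem len_nonneg (ρ : ℝ × ℝ → ℝ) (γ : ℝ → ℝ × ℝ) : 0 ≤ len ρ γ := by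
  unfold len
  exact intervalIntegral.integral_nonneg zero_le_one fun s _ => by positivity

theorem seg_exists (p q : ℝ × ℝ) : ∃ γ : ℝ → ℝ × ℝ, ContDiff ℝ 1 γ ∧ γ 0 = p ∧ γ 1 = q := by
  refine ⟨fun s => (p.1 + s * (q.1 - p.1), p.2 + s * (q.2 - p.2)), by fun_prop, ?_, ?_⟩
  · simp
  · simp

theorem mem_disc_iff (ρ : ℝ × ℝ → ℝ) (L : ℝ) (p q : ℝ × ℝ) (r : ℝ) :
    q ∈ disc ρ L 0 p r ↔ ∃ γ : ℝ → ℝ × ℝ, ContDiff ℝ 1 γ ∧ γ 0 = p ∧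
      (∃ m n : ℤ, γ 1 = (q.1 + m * L, q.2 + n * (2 * Real.pi))) ∧ len ρ γ < r := by
  have hbd : BddBelow {l : ℝ | ∃ γ : ℝ → ℝ × ℝ, ContDiff ℝ 1 γ ∧ γ 0 = p ∧
      (∃ m n : ℤ, γ 1 = (q.1 + m * L, q.2 + m * 0 + n * (2 * Real.pi))) ∧ l = len ρ γ} := by
    refine ⟨0, ?_⟩
    rintro l ⟨γ, -, -, -, rfl⟩
    exact len_nonneg ρ γ
  have hne : {l : ℝ | ∃ γ : ℝ → ℝ × ℝ, ContDiff ℝ 1 γ ∧ γ 0 = p ∧
      (∃ m n : ℤ, γ 1 = (q.1 + m * L, q.2 + m * 0 + n * (2 * Real.pi))) ∧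
      l = len ρ γ}.Nonempty := by
    obtain ⟨γ, h1, h2, h3⟩ := seg_exists p q
    exact ⟨_, γ, h1, h2, ⟨0, 0, by simp [h3]⟩, rfl⟩
  show gdist ρ L 0 p q < r ↔ _
  unfold gdist
  rw [csInf_lt_iff hbd hne]
  constructor
  · rintro ⟨l, ⟨γ, h1, h2, ⟨m, n, h3⟩, rfl⟩, h4⟩
    exact ⟨γ, h1, h2, ⟨m, n, by rw [h3]; simp⟩, h4⟩
  · rintro ⟨γ, h1, h2, ⟨m, n, h3⟩, h4⟩
    exact ⟨_, ⟨γ, h1, h2, ⟨m, n, by rw [h3]; simp⟩, rfl⟩, h4⟩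

theorem mem_sdisc_iff (ρ : ℝ × ℝ → ℝ) (L : ℝ) (p q : ℝ × ℝ) (r : ℝ) :
    q ∈ sdisc ρ L p r ↔ q ∈ disc ρ L 0 p r ∨ (-q.1, -q.2) ∈ disc ρ L 0 p r := by
  have hbd : BddBelow {l : ℝ | ∃ γ : ℝ → ℝ × ℝ, ContDiff ℝ 1 γ ∧ γ 0 = p ∧
      (∃ ε : ℝ, (ε = 1 ∨ ε = -1) ∧ ∃ m n : ℤ,
        γ 1 = (ε * q.1 + m * L, ε * q.2 + n * (2 * Real.pi))) ∧ l = len ρ γ} := by
    refine ⟨0, ?_⟩
    rintro l ⟨γ, -, -, -, rfl⟩
    exact len_nonneg ρ γ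
  have hne : {l : ℝ | ∃ γ : ℝ → ℝ × ℝ, ContDiff ℝ 1 γ ∧ γ 0 = p ∧
      (∃ ε : ℝ, (ε = 1 ∨ ε = -1) ∧ ∃ m n : ℤ,
        γ 1 = (ε * q.1 + m * L, ε * q.2 + n * (2 * Real.pi))) ∧ l = len ρ γ}.Nonempty := by
    obtain ⟨γ, h1, h2, h3⟩ := seg_exists p q
    exact ⟨_, γ, h1, h2, ⟨1, Or.inl rfl, 0, 0, by simp [h3]⟩, rfl⟩
  rw [mem_disc_iff, mem_disc_iff]
  show sdist ρ L p q < r ↔ _
  unfold sdist
  rw [csInf_lt_iff hbd hne]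
  constructor
  · rintro ⟨l, ⟨γ, h1, h2, ⟨ε, hε, m, n, h3⟩, rfl⟩, h4⟩
    rcases hε with rfl | rfl
    · exact Or.inl ⟨γ, h1, h2, ⟨m, n, by rw [h3]; simp⟩, h4⟩
    · exact Or.inr ⟨γ, h1, h2, ⟨m, n, by rw [h3]; simp⟩, h4⟩
  · rintro (⟨γ, h1, h2, ⟨m, n, h3⟩, h4⟩ | ⟨γ, h1, h2, ⟨m, n, h3⟩, h4⟩)
    · exact ⟨_, ⟨γ, h1, h2, ⟨1, Or.inl rfl, m, n, by rw [h3]; simp⟩, rfl⟩, h4⟩
    · exact ⟨_, ⟨γ, h1, h2, ⟨-1, Or.inr rfl, m, n, by rw [h3]; simp⟩, rfl⟩, h4⟩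

theorem image_eq (ρ : ℝ × ℝ → ℝ) (L : ℝ) {φ : ℝ × ℝ → ℝ}
    (he : ∀ p : ℝ × ℝ, φ (-p.1, -p.2) = φ p) (p : ℝ × ℝ) (r : ℝ) :
    (fun q => |φ q|) '' sdisc ρ L p r = (fun q => |φ q|) '' disc ρ L 0 p r := by
  ext t
  constructor
  · rintro ⟨q, hq, rfl⟩
    rcases (mem_sdisc_iff ρ L p q r).1 hq with h | h
    · exact ⟨q, h, rfl⟩
    · exact ⟨_, h, by simp only [he]⟩
  · rintro ⟨q, hq, rfl⟩
    exact ⟨q, (mem_sdisc_iff ρ L p q r).2 (Or.inl hq), rfl⟩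

theorem sdoubling_eq (ρ : ℝ × ℝ → ℝ) (L : ℝ) {φ : ℝ × ℝ → ℝ}
    (he : ∀ p : ℝ × ℝ, φ (-p.1, -p.2) = φ p) (p : ℝ × ℝ) (r : ℝ) :
    sdoubling ρ L φ p r = doubling ρ L 0 φ p r := by
  unfold sdoubling doubling
  rw [image_eq ρ L he, image_eq ρ L he]

theorem SEigen.toEigen {ρ : ℝ × ℝ → ℝ} {L lam : ℝ} {φ : ℝ × ℝ → ℝ} (h : SEigen ρ L lam φ) :
    Eigen ρ L 0 lam φ :=
  ⟨h.pos, h.smooth, fun p => by simpa using h.perx p, h.pery, h.ne, h.eq⟩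

/-- The theorem. -/
theorem main (hS : S_SUM) (f g : ℝ → ℝ) (L m K : ℝ) (h : LM f g L m K) (C C₁ C₂ : ℝ)
    (hC : 0 < C) (hC₁ : 0 < C₁) (hC₂ : 0 < C₂) :
    ∃ A : ℝ, 0 < A ∧ ∀ (lam : ℝ) (φ : ℝ × ℝ → ℝ), SEigen (dens f g) L lam φ →
      ∀ (ι : Type) [Fintype ι] (c : ι → ℝ × ℝ), SAdmissible (dens f g) L lam φ C C₁ C₂ c →
        (∑ i, sdoubling (dens f g) L φ (c i) (C / Real.sqrt lam)) / Fintype.card ι ≤ A := by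
  obtain ⟨a, ha, H⟩ := hS L m K C C₁ h.L0 h.m0 h.K0 hC hC₁
  refine ⟨a * (1 + C₂), by positivity, fun lam φ hφ ι _ c hc => ?_⟩
  have hlam := hφ.pos
  have h1 : (0 : ℝ) < Fintype.card ι := lt_of_lt_of_le (by positivity) hc.lower
  have h2 : (1 : ℝ) ≤ Fintype.card ι := by
    have h3 : 0 < Fintype.card ι := by exact_mod_cast h1
    exact_mod_cast h3
  have h4 : lam ≤ C₂ * Fintype.card ι := by
    have := hc.lower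
    rw [inv_mul_le_iff₀ hC₂] at this
    exact this
  have hmult : ∀ q : ℝ × ℝ,
      ({i | q ∈ disc (dens f g) L 0 (c i) (C / Real.sqrt lam)}.ncard : ℝ) ≤ C₁ := by
    intro q
    refine le_trans ?_ (hc.mult q)
    have h5 : {i | q ∈ disc (dens f g) L 0 (c i) (C / Real.sqrt lam)} ⊆
        {i | q ∈ sdisc (dens f g) L (c i) (C / Real.sqrt lam)} := fun i hi =>
      (mem_sdisc_iff _ _ _ _ _).2 (Or.inl hi)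
    exact_mod_cast Set.ncard_le_ncard h5 (Set.toFinite _)
  rw [div_le_iff₀ h1]
  calc ∑ i, sdoubling (dens f g) L φ (c i) (C / Real.sqrt lam)
      ≤ ∑ i, max (doubling (dens f g) L 0 φ (c i) (C / Real.sqrt lam)) 0 :=
        Finset.sum_le_sum fun i _ => by
          rw [sdoubling_eq _ _ hφ.even]
          exact le_max_left _ _
    _ ≤ a * (1 + lam) := H f g lam φ h hφ.toEigen ι c hmult
    _ ≤ a * (1 + C₂) * Fintype.card ι := by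
        have h5 : 1 + lam ≤ (1 + C₂) * Fintype.card ι := by linarith
        calc a * (1 + lam) ≤ a * ((1 + C₂) * Fintype.card ι) :=
              mul_le_mul_of_nonneg_left h5 ha.le
          _ = _ := by ring

end Pool.Agent.N266.LS
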